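import Pool.Agent.helper67.RG.Spec

/-! Row `rg:FIL`: conjugation stable subspaces of `2 × 2` matrices. -/

set_option autoImplicit false

namespace Pool.Agent.RG.FIL

open Matrix Pool.Agent.GO Pool.Agent.AR Pool.Agent.RG

theorem FIL : FIL_stmt := by
  intro F Γ _ _ _ _ ρ hSI J hJ hY Z hZ
  have hz : em (0 : Fin 3 → F) = 0 := by
    ext i j
    fin_cases i <;> fin_cases j <;> simp [Pool.Agent.AR.em]
  let J' : Submodule F (Fin 3 → F) :=
    { carrier := {x | ∃ c : F, em x + c • (1 : Matrix (Fin 2) (Fin 2) F) ∈ J}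
      add_mem' := by
        rintro x y ⟨c, hc⟩ ⟨d, hd⟩
        refine ⟨c + d, ?_⟩
        have h := J.add_mem hc hd
        have e : em (x + y) + (c + d) • (1 : Matrix (Fin 2) (Fin 2) F) =
            (em x + c • (1 : Matrix (Fin 2) (Fin 2) F)) +
              (em y + d • (1 : Matrix (Fin 2) (Fin 2) F)) := by
          rw [em_add, add_smul]
          abel
        rw [e]
        exact h
      zero_mem' := ⟨0, by rw [hz, zero_smul, add_zero]; exact J.zero_mem⟩
      smul_mem' := by
        rintro a x ⟨c, hc⟩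
        refine ⟨a * c, ?_⟩
        have h := J.smul_mem a hc
        have e : em (a • x) + (a * c) • (1 : Matrix (Fin 2) (Fin 2) F) =
            a • (em x + c • (1 : Matrix (Fin 2) (Fin 2) F)) := by
          rw [em_smul, smul_add, smul_smul]
        rw [e]
        exact h }
  have hst : ∀ g, ∀ x ∈ J', ad0 ρ g *ᵥ x ∈ J' := by
    rintro g x ⟨c, hc⟩
    refine ⟨c, ?_⟩
    have h := hJ g _ hc
    have e : em (ad0 ρ g *ᵥ x) + c • (1 : Matrix (Fin 2) (Fin 2) F) =
        ρ g * (em x + c • (1 : Matrix (Fin 2) (Fin 2) F)) * ρ g⁻¹ := by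
      rw [em_ad0, mul_add, add_mul, mul_smul_comm, smul_mul_assoc, mul_one, ← map_mul,
        mul_inv_cancel, map_one]
    rw [e]
    exact h
  rcases (ad0_irred ρ hSI).2 J' hst with h | h
  · exfalso
    obtain ⟨Y, hYJ, hYs⟩ := hY
    apply hYs
    have ht : (Y - (Y.trace / 2) • (1 : Matrix (Fin 2) (Fin 2) F)).trace = 0 := by
      rw [Matrix.trace_sub, Matrix.trace_smul, Matrix.trace_one, Fintype.card_fin, smul_eq_mul]
      push_cast
      ring
    have h1 : co (Y - (Y.trace / 2) • (1 : Matrix (Fin 2) (Fin 2) F)) ∈ J' := by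
      refine ⟨Y.trace / 2, ?_⟩
      rw [em_co ht, sub_add_cancel]
      exact hYJ
    rw [h, Submodule.mem_bot] at h1
    have h2 := em_co ht
    rw [h1, hz] at h2
    exact ⟨Y.trace / 2, (sub_eq_zero.1 h2.symm)⟩
  · have h1 : co Z ∈ J' := by
      rw [h]
      exact Submodule.mem_top
    obtain ⟨c, hc⟩ := h1
    rw [em_co hZ] at hc
    exact ⟨c, hc⟩

end Pool.Agent.RG.FIL
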