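import Pool.Agent.helper93.RG.SpecS

set_option autoImplicit false

namespace Pool.Agent.RG

theorem SRE_cons {r : ℕ} (s : Fin r × ℤ) (L : List (Fin r × ℤ)) :
    pw (s :: L) = FreeGroup.of s.1 ^ s.2 * pw L := by
  simp [pw]

/-- SRE -/
theorem SRE : SRE_stmt := by
  intro r L
  induction L with
  | nil => exact ⟨[], by simp, List.isChain_nil, rfl, le_refl _, le_refl _⟩
  | cons s T ih =>
    obtain ⟨i, m⟩ := s
    obtain ⟨T', h0, hch, hpw, hlen, hsum⟩ := ih
    simp only [List.map_cons, List.sum_cons, List.length_cons]
    by_cases hm : m = 0
    · subst hm
      refine ⟨T', h0, hch, ?_, by omega, ?_⟩
      · rw [SRE_cons]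
        simp [hpw]
      · simpa using hsum
    · cases T' with
      | nil =>
        refine ⟨[(i, m)], ?_, List.isChain_singleton _, ?_, ?_, ?_⟩
        · intro s hs
          simp only [List.mem_singleton] at hs
          subst hs
          exact hm
        · rw [SRE_cons, SRE_cons, hpw]
        · simp
        · simp only [List.map_cons, List.map_nil, List.sum_cons, List.sum_nil] at hsum ⊢
          exact add_le_add (le_refl _) hsum
      | cons t U =>
        obtain ⟨j, m'⟩ := t
        simp only [List.map_cons, List.sum_cons, List.length_cons] at hlen hsum
        by_cases hij : i = j
        · subst hij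
          have hU : U.IsChain (fun s s' => s.1 ≠ s'.1) := hch.tail
          have hpw2 : FreeGroup.of i ^ m * (FreeGroup.of i ^ m' * pw U) = FreeGroup.of i ^ (m + m') * pw U := by
            rw [← mul_assoc, ← zpow_add]
          by_cases hs : m + m' = 0
          · refine ⟨U, fun s hs => h0 s (List.mem_cons_of_mem _ hs), hU, ?_, by omega, ?_⟩
            · rw [SRE_cons, ← hpw, SRE_cons]
              simp only
              rw [hpw2, hs, zpow_zero, one_mul]
            · have h1 := abs_nonneg m
              have h2 := abs_nonneg m'
              linarith
          · refine ⟨(i, m + m') :: U, ?_, ?_, ?_, ?_, ?_⟩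
            · intro s hs'
              rcases List.mem_cons.1 hs' with h | h
              · subst h
                exact hs
              · exact h0 s (List.mem_cons_of_mem _ h)
            · cases U with
              | nil => exact List.isChain_singleton _
              | cons u W =>
                rw [List.isChain_cons_cons] at hch ⊢
                exact hch
            · rw [SRE_cons, SRE_cons, ← hpw, SRE_cons]
              simp only
              rw [hpw2]
            · simp only [List.length_cons]
              omega
            · simp only [List.map_cons, List.sum_cons]
              have h1 := abs_add_le m m'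
              linarith
        · refine ⟨(i, m) :: (j, m') :: U, ?_, ?_, ?_, ?_, ?_⟩
          · intro s hs'
            rcases List.mem_cons.1 hs' with h | h
            · subst h
              exact hm
            · exact h0 s h
          · rw [List.isChain_cons_cons]
            exact ⟨hij, hch⟩
          · rw [SRE_cons, hpw, ← SRE_cons]
          · simp only [List.length_cons]
            omega
          · simp only [List.map_cons, List.sum_cons]
            linarith

end Pool.Agent.RG
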